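import Pool.Agent.H34.TAM.Stmts3

/-!
Row LGT of the board per.
-/

set_option autoImplicit false

namespace Pool.PER

open Pool.CGR Pool.CGS Pool.TAM Pool.AUT MulOpposite

open scoped TensorProduct

theorem lgt_pow {R : Type} [Ring R] [Algebra ℂ R] (κ : R →ₗ[ℂ] ℂ) (δ : R →ₗ[ℂ] R)
    (hκ : ∀ a b, κ (a * b) = κ (b * a)) (hδ : IsDer δ) (L : R) (n : ℕ) :
    ∀ k : ℕ, κ (δ (L ^ (n + 1)) * L ^ k) = ((n : ℂ) + 1) * κ (L ^ (n + k) * δ L) := by
  induction n with
  | zero =>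
    intro k
    rw [zero_add, pow_one, hκ (δ L) (L ^ k), zero_add]
    push_cast
    ring
  | succ n ih =>
    intro k
    have h1 : δ (L ^ (n + 1 + 1)) = δ (L ^ (n + 1)) * L + L ^ (n + 1) * δ L := by
      rw [pow_succ L (n + 1), hδ]
    have h2 : δ (L ^ (n + 1)) * L * L ^ k = δ (L ^ (n + 1)) * L ^ (k + 1) := by
      rw [mul_assoc, ← pow_succ']
    have h3 : κ (L ^ (n + 1) * δ L * L ^ k) = κ (L ^ (n + 1 + k) * δ L) := by
      rw [hκ (L ^ (n + 1) * δ L) (L ^ k), ← mul_assoc, ← pow_add, add_comm k (n + 1)]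
    rw [h1, add_mul, map_add, h2, ih (k + 1), h3, show n + (k + 1) = n + 1 + k by ring]
    push_cast
    ring

theorem lgt_thm : LGTStmt := by
  intro R _ _ κ δ hκ hδ L N
  rw [Finset.sum_mul, map_sum, map_sum, map_sum]
  refine Finset.sum_congr rfl fun n _ => ?_
  have h := lgt_pow κ δ hκ hδ L n 0
  rw [pow_zero, mul_one, add_zero] at h
  rw [map_smul, map_smul, h, smul_eq_mul]
  have h0 : ((n : ℂ) + 1) ≠ 0 := by exact_mod_cast Nat.succ_ne_zero n
  field_simp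

end Pool.PER
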